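import Mathlib

/-!
# Nonrepetitive 4-choosable subdivisions (MP_e45a60_co, S12077): the word lemma

Every edge `uv` of the graph is replaced by a path with `2 M` inner vertices; the colours read from
`u` to the middle are `x 1, ..., x M`, those read from `v` to the middle are `y 1, ..., y M`.
`Leg` is the star condition on a half edge (idea: helper562, helper378, helper565).
-/

set_option autoImplicit false

namespace Pool.Agent.H409R3.Sub

/-- The star condition on a leg `P 1, P 2, ...` at a branch vertex of colour `α`, up to distance `T`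
(conditions `L0`, `L1`, `L3`, `L2i`, `L2ii` of helper378). -/
structure Leg (α : ℕ) (P : ℕ → ℕ) (T : ℕ) : Prop where
  /-- the first letters -/
  l0 : P 1 ≠ α ∧ P 1 ≠ P 2 ∧ P 1 ≠ P 3 ∧ P 1 ≠ P 4 ∧ ¬ (P 1 = P 5 ∧ P 2 ≠ P 4)
  /-- the first `α` is preceded by a repetition -/
  l1 : ∀ t, 1 ≤ t → t < T → P t = α → (∀ r, 1 ≤ r → r < t → P r ≠ α) →
    ∃ d, (d = 2 ∨ d = 3 ∨ (d = 4 ∧ P (t - 2) ≠ P (t - 4))) ∧ d + 2 ≤ t ∧ P (t - 1) = P (t - 1 - d)
  /-- after an `α` there is no such repetition -/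
  l3 : ∀ q, 1 ≤ q → q < T → P q = α →
    ∀ d, (d = 2 ∨ d = 3 ∨ (d = 4 ∧ P (q + 2) ≠ P (q + 4))) →
      (∀ r, 1 ≤ r → r ≤ d + 1 → P (q + r) ≠ α) → P (q + 1) ≠ P (q + 1 + d)
  /-- the beginning of the leg does not recur (up to five letters) after the first `α` -/
  l2i : ∀ t, 1 ≤ t → t < T → P t = α → (∀ r, 1 ≤ r → r < t → P r ≠ α) →
    ∃ r, 1 ≤ r ∧ r + 5 ≤ t ∧ P (t + r) ≠ P r
  /-- the beginning of the leg (up to the first `α`) does not recur after a later `α` -/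
  l2ii : ∀ u t, 1 ≤ u → u < t → t < T → P u = α → (∀ r, 1 ≤ r → r < u → P r ≠ α) → P t = α →
    ∃ r, 1 ≤ r ∧ r ≤ u ∧ P (t + r) ≠ P r

/-- The colours of the `2 M` inner vertices of an edge, read from one end. -/
def join (M : ℕ) (x y : ℕ → ℕ) (i : ℕ) : ℕ := if i ≤ M then x i else y (2 * M + 1 - i)

/-- The window `x i, ..., x (i+s-1)`. -/
def win (x : ℕ → ℕ) (s i : ℕ) : List ℕ := (List.range s).map (fun r => x (i + r))

/-- All requirements on the two half edges `x`, `y` of one edge. -/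
structure GoodEdge (s M : ℕ) (Lx Ly : ℕ → Finset ℕ) (a b : ℕ) (F : Finset (List ℕ))
    (x y : ℕ → ℕ) : Prop where
  memx : ∀ i, 1 ≤ i → i ≤ M → x i ∈ Lx i
  memy : ∀ i, 1 ≤ i → i ≤ M → y i ∈ Ly i
  legx : Leg a x (12 * s)
  legy : Leg b y (12 * s)
  /-- no square of half-length `< 12 s` inside the edge -/
  nosq : ∀ t i, 1 ≤ t → t < 12 * s → 1 ≤ i → i + 2 * t ≤ 2 * M + 1 →
    ∃ r < t, join M x y (i + r) ≠ join M x y (i + t + r)
  Fx : ∀ i, 1 ≤ i → i + s ≤ M + 1 → win x s i ∉ F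
  Fy : ∀ i, 1 ≤ i → i + s ≤ M + 1 → win y s i ∉ F
  Ux : ∀ i j, 1 ≤ i → i + s ≤ j → j + s ≤ M + 1 →
    win x s i ≠ win x s j ∧ win x s i ≠ (win x s j).reverse
  Uy : ∀ i j, 1 ≤ i → i + s ≤ j → j + s ≤ M + 1 →
    win y s i ≠ win y s j ∧ win y s i ≠ (win y s j).reverse
  Uxy : ∀ i j, 1 ≤ i → i + s ≤ M + 1 → 1 ≤ j → j + s ≤ M + 1 →
    win x s i ≠ win y s j ∧ win x s i ≠ (win y s j).reverse

/-- The word lemma: `m` is a constant depending on the graph only. -/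
def WordLemma : Prop :=
  ∀ m : ℕ, ∃ s M : ℕ, 2 ≤ s ∧ 24 * s ≤ M ∧
    ∀ (Lx Ly : ℕ → Finset ℕ) (a b : ℕ) (F : Finset (List ℕ)),
      (∀ i, (Lx i).card = 4) → (∀ i, (Ly i).card = 4) → F.card ≤ m * M →
      ∃ x y : ℕ → ℕ, GoodEdge s M Lx Ly a b F x y

end Pool.Agent.H409R3.Sub
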