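import Pool.Agent.H409R3.Sub.Stmts
import Pool.Agent.H401R3.SD.Graph

/-! Reduction of helper401's `WordPart` (all edges) to `WordLemma` (one edge). -/

set_option autoImplicit false

namespace Pool.Agent.H409R3.Sub

/-- The core of the star condition: `v` has colour `α`, its partner is `Q t`, the first half contains
`P (a-1), ..., P 1, v, Q 1, ..., Q (t-a)`. -/
theorem star_core {α : ℕ} {P Q : ℕ → ℕ} {T t a : ℕ} (ha1 : 1 ≤ a) (hat : a ≤ t)
    (hP : a = 1 ∨ Leg α P T) (hQ : Leg α Q T)
    (htT : t < T) (hQt : Q t = α)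
    (h : ∀ r, 1 ≤ r → r < a → P r = Q (t - r))
    (h' : ∀ r, 1 ≤ r → r ≤ t - a → Q r = Q (t + r)) : False := by
  -- the first `α` in `P (1..a-1)`
  by_cases hex : ∃ r, (1 ≤ r ∧ r < a) ∧ P r = α
  · classical
    have hmin := Nat.find_spec hex
    set τ := Nat.find hex with hτ
    have hlt : ∀ r, 1 ≤ r → r < τ → P r ≠ α := by
      intro r hr hr' hc
      exact Nat.find_min hex hr' ⟨⟨hr, by omega⟩, hc⟩
    obtain ⟨⟨h1, h2⟩, h3⟩ := hmin
    have hLP : Leg α P T := by
      rcases hP with h | h
      · omega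
      · exact h
    obtain ⟨d, hd, hdt, he⟩ := hLP.l1 τ h1 (by omega) h3 hlt
    have hq : Q (t - τ) = α := by rw [← h τ h1 h2]; exact h3
    have hz : ∀ r, 1 ≤ r → r < τ → Q (t - τ + r) = P (τ - r) := by
      intro r hr hr'
      have := h (τ - r) (by omega) (by omega)
      rw [this]; congr 1; omega
    have hd5 : d ≤ 4 := by omega
    refine hQ.l3 (t - τ) (by omega) (by omega) hq d ?_ ?_ ?_
    · rcases hd with h | h | ⟨h, h4⟩
      · exact Or.inl h
      · exact Or.inr (Or.inl h)
      · refine Or.inr (Or.inr ⟨h, ?_⟩)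
        subst h
        rw [hz 2 (by omega) (by omega), hz 4 (by omega) (by omega)]
        exact h4
    · intro r hr hr'
      rw [hz r hr (by omega)]
      exact hlt _ (by omega) (by omega)
    · have e1 := hz 1 le_rfl (by omega)
      have e2 := hz (1 + d) (by omega) (by omega)
      rw [e1, show t - τ + 1 + d = t - τ + (1 + d) by ring, e2, he]
      congr 1
      omega
  · push Not at hex
    have hQno : ∀ r, t - a + 1 ≤ r → r < t → Q r ≠ α := by
      intro r hr hr'
      have := h (t - r) (by omega) (by omega)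
      rw [show t - (t - r) = r by omega] at this
      rw [← this]
      exact hex (t - r) ⟨by omega, by omega⟩
    by_cases hex2 : ∃ r, (1 ≤ r ∧ r ≤ t - a) ∧ Q r = α
    · classical
      have hmin := Nat.find_spec hex2
      set τ := Nat.find hex2 with hτ
      have hlt : ∀ r, 1 ≤ r → r < τ → Q r ≠ α := by
        intro r hr hr' hc
        exact Nat.find_min hex2 hr' ⟨⟨hr, by omega⟩, hc⟩
      obtain ⟨⟨h1, h2⟩, h3⟩ := hmin
      obtain ⟨r, hr1, hr2, hne⟩ := hQ.l2ii τ t h1 (by omega) htT h3 hlt hQt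
      exact hne (h' r hr1 (by omega)).symm
    · push Not at hex2
      have hfirst : ∀ r, 1 ≤ r → r < t → Q r ≠ α := by
        intro r hr hr'
        by_cases hle : r ≤ t - a
        · exact hex2 r ⟨hr, hle⟩
        · exact hQno r (by omega) hr'
      obtain ⟨d, hd, hdt, he⟩ := hQ.l1 t (by omega) htT hQt hfirst
      by_cases hda : d + 2 ≤ a
      · have hLP : Leg α P T := by
          rcases hP with h | h
          · omega
          · exact h
        have h1 := h 1 le_rfl (by omega)
        have h2 := h (1 + d) (by omega) (by omega)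
        rw [show t - (1 + d) = t - 1 - d by omega] at h2
        have h3 : P 1 = P (1 + d) := by rw [h1, h2, he]
        obtain ⟨_, _, l3, l4, l5⟩ := hLP.l0
        rcases hd with rfl | rfl | ⟨rfl, h4⟩
        · exact l3 h3
        · exact l4 h3
        · refine l5 ⟨h3, ?_⟩
          rw [h 2 (by omega) (by omega), h 4 (by omega) (by omega)]
          exact h4
      · obtain ⟨r, hr1, hr2, hne⟩ := hQ.l2i t (by omega) htT hQt hfirst
        exact hne (h' r hr1 (by omega)).symm

theorem win_ne {x y : ℕ → ℕ} {s i j : ℕ} (h : win x s i ≠ win y s j) :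
    ∃ r < s, x (i + r) ≠ y (j + r) := by
  by_contra hc
  push Not at hc
  apply h
  unfold win
  apply List.map_congr_left
  intro r hr
  exact hc r (List.mem_range.1 hr)

theorem win_reverse (y : ℕ → ℕ) (s j : ℕ) :
    (win y s j).reverse = (List.range s).map (fun r => y (j + (s - 1 - r))) := by
  unfold win
  apply List.ext_getElem
  · simp
  · intro n h1 h2
    simp only [List.length_map, List.length_range] at h2
    simp [List.getElem_reverse]

theorem win_ne_rev {x y : ℕ → ℕ} {s i j : ℕ} (h : win x s i ≠ (win y s j).reverse) :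
    ∃ r < s, x (i + r) ≠ y (j + (s - 1 - r)) := by
  by_contra hc
  push Not at hc
  apply h
  rw [win_reverse]
  unfold win
  apply List.map_congr_left
  intro r hr
  exact hc r (List.mem_range.1 hr)

/-- two words differ on the windows in both orientations -/
def Diff (s : ℕ) (x : ℕ → ℕ) (i : ℕ) (y : ℕ → ℕ) (j : ℕ) : Prop :=
  (∃ r < s, x (i + r) ≠ y (j + r)) ∧ (∃ r < s, x (i + r) ≠ y (j + (s - 1 - r)))

theorem Diff.symm {s : ℕ} {x y : ℕ → ℕ} {i j : ℕ} (h : Diff s x i y j) : Diff s y j x i := by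
  obtain ⟨⟨r, hr, h1⟩, ⟨r', hr', h2⟩⟩ := h
  refine ⟨⟨r, hr, h1.symm⟩, ⟨s - 1 - r', by omega, ?_⟩⟩
  have : s - 1 - (s - 1 - r') = r' := by omega
  rw [this]
  exact h2.symm

theorem diff_of {x y : ℕ → ℕ} {s i j : ℕ} (h1 : win x s i ≠ win y s j)
    (h2 : win x s i ≠ (win y s j).reverse) : Diff s x i y j := ⟨win_ne h1, win_ne_rev h2⟩

section

variable {m s M : ℕ}

/-- half-edge words -/
def Z (X Y : Fin m → ℕ → ℕ) (e : Fin m) (b : Bool) : ℕ → ℕ := if b then Y e else X e

/-- the family constructed so far -/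
structure Upto (n s M : ℕ) (Lx Ly : Fin m → ℕ → Finset ℕ) (al be : Fin m → ℕ)
    (X Y : Fin m → ℕ → ℕ) : Prop where
  good : ∀ e : Fin m, e.1 < n → ∃ F, GoodEdge s M (Lx e) (Ly e) (al e) (be e) F (X e) (Y e)
  cross : ∀ e e' : Fin m, e.1 < n → e'.1 < e.1 → ∀ b b' i j, 1 ≤ i → i + s ≤ M + 1 → 1 ≤ j →
    j + s ≤ M + 1 → Diff s (Z X Y e b) i (Z X Y e' b') j

theorem exists_upto (hs : 2 ≤ s) (hM : 24 * s ≤ M)
    (H : ∀ (Lx Ly : ℕ → Finset ℕ) (a b : ℕ) (F : Finset (List ℕ)),
      (∀ i, (Lx i).card = 4) → (∀ i, (Ly i).card = 4) → F.card ≤ (8 * m) * M →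
      ∃ x y : ℕ → ℕ, GoodEdge s M Lx Ly a b F x y)
    (Lx Ly : Fin m → ℕ → Finset ℕ) (hLx : ∀ e i, (Lx e i).card = 4) (hLy : ∀ e i, (Ly e i).card = 4)
    (al be : Fin m → ℕ) : ∀ n : ℕ, n ≤ m → ∃ X Y : Fin m → ℕ → ℕ, Upto n s M Lx Ly al be X Y := by
  intro n
  induction n with
  | zero =>
    intro _
    exact ⟨fun _ _ => 0, fun _ _ => 0, ⟨fun e he => absurd he (by omega), fun e e' he => absurd he (by omega)⟩⟩
  | succ n ih =>
    intro hn
    obtain ⟨X, Y, hU⟩ := ih (by omega)
    classical
    let F : Finset (List ℕ) := (Finset.univ : Finset (Fin m × Bool × Fin (M + 1) × Bool)).image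
      (fun q => if q.2.2.2 then win (Z X Y q.1 q.2.1) s q.2.2.1.1
        else (win (Z X Y q.1 q.2.1) s q.2.2.1.1).reverse)
    have hF : F.card ≤ (8 * m) * M := by
      refine le_trans Finset.card_image_le ?_
      rw [Finset.card_univ]
      simp only [Fintype.card_prod, Fintype.card_fin, Fintype.card_bool]
      have : M + 1 ≤ 2 * M := by omega
      nlinarith [Nat.mul_le_mul_left (m * 4) this]
    let e0 : Fin m := ⟨n, by omega⟩
    obtain ⟨x, y, hxy⟩ := H (Lx e0) (Ly e0) (al e0) (be e0) F (hLx e0) (hLy e0) hF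
    refine ⟨Function.update X e0 x, Function.update Y e0 y, ⟨?_, ?_⟩⟩
    · intro e he
      rcases Nat.lt_or_ge e.1 n with hlt | hge
      · have hne : e ≠ e0 := by
          intro h; rw [h] at hlt; exact lt_irrefl _ hlt
        rw [Function.update_of_ne hne, Function.update_of_ne hne]
        exact hU.good e hlt
      · have heq : e = e0 := Fin.ext (by show e.1 = n; omega)
        subst heq
        rw [Function.update_self, Function.update_self]
        exact ⟨F, hxy⟩
    · intro e e' he he' b b' i j hi hi' hj hj'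
      have hne' : e' ≠ e0 := by
        intro h
        rw [h] at he'
        have : e0.1 = n := rfl
        omega
      have hZ' : Z (Function.update X e0 x) (Function.update Y e0 y) e' b' = Z X Y e' b' := by
        unfold Z
        rw [Function.update_of_ne hne', Function.update_of_ne hne']
      rw [hZ']
      rcases Nat.lt_or_ge e.1 n with hlt | hge
      · have hne : e ≠ e0 := by
          intro h; rw [h] at hlt; exact lt_irrefl _ hlt
        have hZ : Z (Function.update X e0 x) (Function.update Y e0 y) e b = Z X Y e b := by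
          unfold Z
          rw [Function.update_of_ne hne, Function.update_of_ne hne]
        rw [hZ]
        exact hU.cross e e' hlt he' b b' i j hi hi' hj hj'
      · have heq : e = e0 := Fin.ext (by show e.1 = n; omega)
        subst heq
        have hm1 : win (Z X Y e' b') s j ∈ F := by
          refine Finset.mem_image.2 ⟨(e', b', ⟨j, by omega⟩, true), Finset.mem_univ _, ?_⟩
          simp
        have hm2 : (win (Z X Y e' b') s j).reverse ∈ F := by
          refine Finset.mem_image.2 ⟨(e', b', ⟨j, by omega⟩, false), Finset.mem_univ _, ?_⟩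
          simp
        cases b with
        | false =>
          have hZ : Z (Function.update X e0 x) (Function.update Y e0 y) e0 false = x := by
            simp [Z]
          rw [hZ]
          have h1 := hxy.Fx i hi hi'
          exact diff_of (fun h => h1 (h ▸ hm1)) (fun h => h1 (h ▸ hm2))
        | true =>
          have hZ : Z (Function.update X e0 x) (Function.update Y e0 y) e0 true = y := by
            simp [Z]
          rw [hZ]
          have h1 := hxy.Fy i hi hi'
          exact diff_of (fun h => h1 (h ▸ hm1)) (fun h => h1 (h ▸ hm2))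

/-- uniqueness of clean windows -/
theorem diff_all {Lx Ly : Fin m → ℕ → Finset ℕ} {al be : Fin m → ℕ} {X Y : Fin m → ℕ → ℕ}
    (hU : Upto m s M Lx Ly al be X Y) (e e' : Fin m) (b b' : Bool) (i j : ℕ)
    (hi : 1 ≤ i) (hi' : i + s ≤ M + 1) (hj : 1 ≤ j) (hj' : j + s ≤ M + 1)
    (hd : e ≠ e' ∨ b ≠ b' ∨ i + s ≤ j ∨ j + s ≤ i) : Diff s (Z X Y e b) i (Z X Y e' b') j := by
  rcases lt_trichotomy e.1 e'.1 with h | h | h
  · exact (hU.cross e' e e'.2 h b' b j i hj hj' hi hi').symm
  · have he : e = e' := Fin.ext h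
    subst he
    obtain ⟨F, hG⟩ := hU.good e e.2
    have hd' : b ≠ b' ∨ i + s ≤ j ∨ j + s ≤ i := by
      rcases hd with h | h
      · exact absurd rfl h
      · exact h
    cases b <;> cases b'
    · have hd2 : i + s ≤ j ∨ j + s ≤ i := by simpa using hd'
      simp only [Z, Bool.false_eq_true, if_false]
      rcases hd2 with h1 | h1
      · exact diff_of (hG.Ux i j hi h1 hj').1 (hG.Ux i j hi h1 hj').2
      · exact (diff_of (hG.Ux j i hj h1 hi').1 (hG.Ux j i hj h1 hi').2).symm
    · simp only [Z, Bool.false_eq_true, if_false, if_true]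
      exact diff_of (hG.Uxy i j hi hi' hj hj').1 (hG.Uxy i j hi hi' hj hj').2
    · simp only [Z, Bool.false_eq_true, if_false, if_true]
      exact (diff_of (hG.Uxy j i hj hj' hi hi').1 (hG.Uxy j i hj hj' hi hi').2).symm
    · have hd2 : i + s ≤ j ∨ j + s ≤ i := by simpa using hd'
      simp only [Z, if_true]
      rcases hd2 with h1 | h1
      · exact diff_of (hG.Uy i j hi h1 hj').1 (hG.Uy i j hi h1 hj').2
      · exact (diff_of (hG.Uy j i hj h1 hi').1 (hG.Uy j i hj h1 hi').2).symm
  · exact hU.cross e e' e.2 h b b' i j hi hi' hj hj'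

/-- a window of the edge word that does not cross the middle is a clean window -/
theorem clean (X Y : Fin m → ℕ → ℕ) (e : Fin m) (k : ℕ) (hk : k + s ≤ M ∨ (M ≤ k ∧ k + s ≤ 2 * M)) :
    ∃ (b : Bool) (i : ℕ) (o : Bool), 1 ≤ i ∧ i + s ≤ M + 1 ∧
      (∀ r < s, join M (X e) (Y e) (k + r + 1) = Z X Y e b (i + if o then r else s - 1 - r)) ∧
      (b = false → i = k + 1) ∧ (b = true → i = 2 * M + 1 - (k + s)) := by
  rcases hk with hk | ⟨hk, hk'⟩
  · refine ⟨false, k + 1, true, by omega, by omega, ?_, fun _ => rfl, by simp⟩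
    intro r hr
    unfold join Z
    rw [if_pos (by omega)]
    simp only [Bool.false_eq_true, if_false, if_true]
    congr 1
    omega
  · refine ⟨true, 2 * M + 1 - (k + s), false, by omega, by omega, ?_, by simp, fun _ => rfl⟩
    intro r hr
    unfold join Z
    rw [if_neg (by omega)]
    simp only [Bool.false_eq_true, if_false, if_true]
    congr 1
    omega

/-- uniqueness of windows of the edge words that do not cross the middle -/
theorem uniq_clean {Lx Ly : Fin m → ℕ → Finset ℕ} {al be : Fin m → ℕ} {X Y : Fin m → ℕ → ℕ}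
    (hU : Upto m s M Lx Ly al be X Y) (e e' : Fin m) (k k' : ℕ)
    (hk : k + s ≤ M ∨ (M ≤ k ∧ k + s ≤ 2 * M)) (hk' : k' + s ≤ M ∨ (M ≤ k' ∧ k' + s ≤ 2 * M))
    (hd : e ≠ e' ∨ k + s ≤ k' ∨ k' + s ≤ k) :
    (∃ r < s, join M (X e) (Y e) (k + r + 1) ≠ join M (X e') (Y e') (k' + r + 1)) ∧
    (∃ r < s, join M (X e) (Y e) (k + r + 1) ≠ join M (X e') (Y e') (k' + (s - 1 - r) + 1)) := by
  obtain ⟨b, i, o, hi, hi', hw, hbf, hbt⟩ := clean (s := s) (M := M) X Y e k hk
  obtain ⟨b', i', o', hi2, hi2', hw', hbf', hbt'⟩ := clean (s := s) (M := M) X Y e' k' hk'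
  have hD := diff_all hU e e' b b' i i' hi hi' hi2 hi2' (by
    by_cases hbb : b = b'
    · rcases hd with h | h
      · exact Or.inl h
      · right; right
        subst hbb
        cases b with
        | false =>
          rw [hbf rfl, hbf' rfl]
          omega
        | true =>
          rw [hbt rfl, hbt' rfl]
          omega
    · exact Or.inr (Or.inl hbb))
  obtain ⟨⟨r1, hr1, h1⟩, ⟨r2, hr2, h2⟩⟩ := hD
  -- the reversed version of the first one
  have hD' : (∃ r < s, Z X Y e b (i + (s - 1 - r)) ≠ Z X Y e' b' (i' + (s - 1 - r))) :=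
    ⟨s - 1 - r1, by omega, by rw [show s - 1 - (s - 1 - r1) = r1 by omega]; exact h1⟩
  have hD'' : (∃ r < s, Z X Y e b (i + (s - 1 - r)) ≠ Z X Y e' b' (i' + r)) :=
    ⟨s - 1 - r2, by omega, by rw [show s - 1 - (s - 1 - r2) = r2 by omega]; exact h2⟩
  obtain ⟨r3, hr3, h3⟩ := hD'
  obtain ⟨r4, hr4, h4⟩ := hD''
  have key : ∀ r < s, s - 1 - (s - 1 - r) = r := fun r hr => by omega
  cases o <;> cases o'
  · refine ⟨⟨r3, hr3, ?_⟩, ⟨r4, hr4, ?_⟩⟩
    · rw [hw r3 hr3, hw' r3 hr3]; simpa using h3
    · rw [hw r4 hr4, hw' (s - 1 - r4) (by omega)]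
      simp only [Bool.false_eq_true, if_false]
      rw [key r4 hr4]; exact h4
  · refine ⟨⟨r4, hr4, ?_⟩, ⟨r3, hr3, ?_⟩⟩
    · rw [hw r4 hr4, hw' r4 hr4]; simpa using h4
    · rw [hw r3 hr3, hw' (s - 1 - r3) (by omega)]; simpa using h3
  · refine ⟨⟨r2, hr2, ?_⟩, ⟨r1, hr1, ?_⟩⟩
    · rw [hw r2 hr2, hw' r2 hr2]; simpa using h2
    · rw [hw r1 hr1, hw' (s - 1 - r1) (by omega)]
      simp only [Bool.false_eq_true, if_false, if_true]
      rw [key r1 hr1]; exact h1
  · refine ⟨⟨r1, hr1, ?_⟩, ⟨r2, hr2, ?_⟩⟩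
    · rw [hw r1 hr1, hw' r1 hr1]; simpa using h1
    · rw [hw r2 hr2, hw' (s - 1 - r2) (by omega)]; simpa using h2

theorem pick (k k' : ℕ) :
    ∃ c, c ≤ 2 ∧ (k + c * s + s ≤ M ∨ M ≤ k + c * s) ∧ (k' + c * s + s ≤ M ∨ M ≤ k' + c * s) := by
  by_contra hc
  push Not at hc
  have h0 := hc 0 (by omega)
  have h1 := hc 1 (by omega)
  have h2 := hc 2 (by omega)
  simp only [zero_mul, one_mul] at h0 h1 h2
  omega

theorem pick' (k k' : ℕ) :
    ∃ c, c ≤ 2 ∧ (k + c * s + s ≤ M ∨ M ≤ k + c * s) ∧
      (k' + (2 - c) * s + s ≤ M ∨ M ≤ k' + (2 - c) * s) := by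
  by_contra hc
  push Not at hc
  have h0 := hc 0 (by omega)
  have h1 := hc 1 (by omega)
  have h2 := hc 2 (by omega)
  simp only [Nat.sub_zero, zero_mul, one_mul, Nat.sub_self, show 2 - 1 = 1 from rfl] at h0 h1 h2
  omega

end

open Pool.Agent.H401R3.SD in
theorem wordPart_of_wordLemma (H : WordLemma) : WordPart := by
  intro m
  obtain ⟨s, M, hs, hM, H⟩ := H (8 * m)
  refine ⟨2 * M, 12 * s, 3 * s, by omega, by omega, by omega, ?_⟩
  intro L hL al be
  classical
  -- lists of size exactly four
  have hsub : ∀ e k, ∃ t ⊆ L e k, t.card = 4 := fun e k => Finset.exists_subset_card_eq (hL e k)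
  choose L4 hL4 hL4c using hsub
  let Lx : Fin m → ℕ → Finset ℕ := fun e i => L4 e (i - 1)
  let Ly : Fin m → ℕ → Finset ℕ := fun e i => L4 e (2 * M - i)
  obtain ⟨X, Y, hU⟩ := exists_upto hs hM H Lx Ly (fun e i => hL4c e _) (fun e i => hL4c e _) al be m le_rfl
  let w : Fin m → ℕ → ℕ := fun e k => join M (X e) (Y e) (k + 1)
  have hlegf : ∀ (e : Fin m) (b : Bool) (r : ℕ), 1 ≤ r → r ≤ M → leg (2 * M) (w e) b r = Z X Y e b r := by
    intro e b r hr hr'
    cases b with
    | false =>
      show join M (X e) (Y e) (r - 1 + 1) = X e r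
      rw [show r - 1 + 1 = r by omega]
      unfold join
      rw [if_pos hr']
    | true =>
      show join M (X e) (Y e) (2 * M - r + 1) = Y e r
      unfold join
      rw [if_neg (by omega)]
      congr 1
      omega
  have hLeg : ∀ (e : Fin m) (b : Bool), Leg (ctr al be e b) (Z X Y e b) (12 * s) := by
    intro e b
    obtain ⟨F, hG⟩ := hU.good e e.2
    cases b with
    | false => exact hG.legx
    | true => exact hG.legy
  refine ⟨w, ?_, ?_, ?_, ?_, ?_⟩
  · intro e k hk
    obtain ⟨F, hG⟩ := hU.good e e.2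
    show join M (X e) (Y e) (k + 1) ∈ L e k
    unfold join
    split_ifs with h
    · have := hG.memx (k + 1) (by omega) h
      exact hL4 e k (by simpa [Lx] using this)
    · have := hG.memy (2 * M + 1 - (k + 1)) (by omega) (by omega)
      refine hL4 e k ?_
      have e1 : 2 * M - (2 * M + 1 - (k + 1)) = k := by omega
      have e2 : Ly e (2 * M + 1 - (k + 1)) = L4 e k := by
        show L4 e (2 * M - (2 * M + 1 - (k + 1))) = L4 e k
        rw [e1]
      rw [e2] at this
      exact this
  · intro e k t ht ht' hkt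
    obtain ⟨F, hG⟩ := hU.good e e.2
    obtain ⟨r, hr, hne⟩ := hG.nosq t (k + 1) ht ht' (by omega) (by omega)
    refine ⟨r, hr, ?_⟩
    show join M (X e) (Y e) (k + r + 1) ≠ join M (X e) (Y e) (k + t + r + 1)
    rw [show k + r + 1 = k + 1 + r by ring, show k + t + r + 1 = k + 1 + t + r by ring]
    exact hne
  · intro e e' k k' hk hk' hd
    obtain ⟨c, hc, h1, h2⟩ := pick (s := s) (M := M) k k'
    have hcs : c * s ≤ 2 * s := Nat.mul_le_mul_right s hc
    obtain ⟨⟨r, hr, hne⟩, -⟩ := uniq_clean hU e e' (k + c * s) (k' + c * s)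
      (by rcases h1 with h1 | h1
          · exact Or.inl h1
          · exact Or.inr ⟨h1, by omega⟩)
      (by rcases h2 with h2 | h2
          · exact Or.inl h2
          · exact Or.inr ⟨h2, by omega⟩)
      (by rcases hd with h | h | h
          · exact Or.inl h
          · right; left; omega
          · right; right; omega)
    refine ⟨c * s + r, by omega, ?_⟩
    show join M (X e) (Y e) (k + (c * s + r) + 1) ≠ join M (X e') (Y e') (k' + (c * s + r) + 1)
    rw [← Nat.add_assoc k, ← Nat.add_assoc k']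
    exact hne
  · intro e e' k k' hk hk' hd
    obtain ⟨c, hc, h1, h2⟩ := pick' (s := s) (M := M) k k'
    have hcs : c * s ≤ 2 * s := Nat.mul_le_mul_right s hc
    have hcs2 : c * s + (2 - c) * s = 2 * s := by
      rw [← Nat.add_mul]; congr 1; omega
    obtain ⟨-, ⟨r, hr, hne⟩⟩ := uniq_clean hU e e' (k + c * s) (k' + (2 - c) * s)
      (by rcases h1 with h1 | h1
          · exact Or.inl h1
          · exact Or.inr ⟨h1, by omega⟩)
      (by rcases h2 with h2 | h2
          · exact Or.inl h2
          · exact Or.inr ⟨h2, by omega⟩)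
      (by rcases hd with h | h | h
          · exact Or.inl h
          · right; left; omega
          · right; right; omega)
    refine ⟨c * s + r, by omega, ?_⟩
    show join M (X e) (Y e) (k + (c * s + r) + 1) ≠ join M (X e') (Y e') (k' + (3 * s - 1 - (c * s + r)) + 1)
    rw [← Nat.add_assoc k]
    have e1 : k' + (3 * s - 1 - (c * s + r)) + 1 = k' + (2 - c) * s + (s - 1 - r) + 1 := by omega
    rw [e1]
    exact hne
  · intro e b e' b' t a ha1 hat htT hc hcen h2 h3
    have hQ := hLeg e' b'
    have hQt : Z X Y e' b' t = ctr al be e' b' := by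
      rw [← hlegf e' b' t (by omega) (by omega)]; exact hcen
    refine star_core (T := 12 * s) (a := a) (P := Z X Y e b) (Q := Z X Y e' b') ha1 hat ?_ hQ htT hQt ?_ ?_
    · rcases hc with h | ⟨_, h⟩
      · exact Or.inl h
      · right
        rw [← h]
        exact hLeg e b
    · intro r hr hr'
      have h6 := h2 r hr hr'
      rw [hlegf e b r hr (by omega), hlegf e' b' (t - r) (by omega) (by omega)] at h6
      exact h6
    · intro r hr hr'
      have h6 := h3 r hr hr'
      rw [hlegf e' b' r hr (by omega), hlegf e' b' (t + r) (by omega) (by omega)] at h6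
      exact h6

end Pool.Agent.H409R3.Sub
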